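import Mathlib
import Pool.Agent.Helper325.BorsukUlam

/-!
If `dim G₁ < dim W` (finite dimensions over the reals) then some nonzero `y ∈ W` has `0` as a
nearest point in `G₁`.
-/

namespace Pool.Agent.Helper325.KKMFinite

open Pool.Agent.Helper325.BorsukUlam

variable {E : Type*} [NormedAddCommGroup E] [NormedSpace ℝ E]

/-- the odd continuous selection -/
noncomputable def sel {G : Submodule ℝ E} (T : Finset G) (y : E) : G :=
  ∑ x ∈ T, (max 0 (‖y‖ - ‖y - x‖) - max 0 (‖y‖ - ‖y + x‖)) • x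

theorem sel_neg {G : Submodule ℝ E} (T : Finset G) (y : E) : sel T (-y) = - sel T y := by
  rw [sel, sel, ← Finset.sum_neg_distrib]
  refine Finset.sum_congr rfl fun x _ => ?_
  have h1 : ‖-y - (x : E)‖ = ‖y + x‖ := by rw [← norm_neg]; congr 1; abel
  have h2 : ‖-y + (x : E)‖ = ‖y - x‖ := by rw [← norm_neg]; congr 1; abel
  rw [norm_neg, h1, h2, ← neg_smul]
  congr 1
  ring

theorem sel_continuous {G : Submodule ℝ E} (T : Finset G) : Continuous (sel T) := by
  unfold sel
  fun_prop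

theorem sel_ne_zero {G : Submodule ℝ E} (T : Finset G) (y : E)
    (h : ∃ x ∈ T, ‖y - x‖ < ‖y‖) : sel T y ≠ 0 := by
  intro h0
  have hE : ∑ x ∈ T, (max 0 (‖y‖ - ‖y - x‖) - max 0 (‖y‖ - ‖y + x‖)) • (x : E) = 0 := by
    have := congrArg (fun z : G => (z : E)) h0
    simpa [sel] using this
  set w : G → ℝ := fun x => max 0 (‖y‖ - ‖y - x‖) with hw
  set w' : G → ℝ := fun x => max 0 (‖y‖ - ‖y + x‖) with hw'
  have hw0 : ∀ x, 0 ≤ w x := fun x => le_max_left _ _
  have hw'0 : ∀ x, 0 ≤ w' x := fun x => le_max_left _ _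
  have e1 : (∑ x ∈ T, (w x + w' x)) • y = ∑ x ∈ T, (w x • (y - (x : E)) + w' x • (y + (x : E))) := by
    rw [Finset.sum_smul]
    have : ∀ x : G, w x • (y - (x : E)) + w' x • (y + (x : E)) =
        (w x + w' x) • y - (w x - w' x) • (x : E) := by
      intro x
      rw [smul_sub, smul_add, add_smul, sub_smul]
      abel
    simp_rw [this]
    rw [Finset.sum_sub_distrib, hE, sub_zero]
  have e2 : (∑ x ∈ T, (w x + w' x)) * ‖y‖ ≤
      ∑ x ∈ T, (w x * ‖y - (x : E)‖ + w' x * ‖y + (x : E)‖) := by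
    have h1 : (∑ x ∈ T, (w x + w' x)) * ‖y‖ = ‖(∑ x ∈ T, (w x + w' x)) • y‖ := by
      rw [norm_smul, Real.norm_of_nonneg (Finset.sum_nonneg fun x _ => add_nonneg (hw0 x) (hw'0 x))]
    rw [h1, e1]
    refine (norm_sum_le _ _).trans (Finset.sum_le_sum fun x _ => ?_)
    refine (norm_add_le _ _).trans ?_
    rw [norm_smul, norm_smul, Real.norm_of_nonneg (hw0 x), Real.norm_of_nonneg (hw'0 x)]
  have e3 : ∀ x : G, w x * ‖y - (x : E)‖ + w' x * ‖y + (x : E)‖ ≤ (w x + w' x) * ‖y‖ := by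
    intro x
    have h1 : w x * ‖y - (x : E)‖ ≤ w x * ‖y‖ := by
      rcases le_or_gt ‖y‖ ‖y - (x : E)‖ with h | h
      · have : w x = 0 := by simp only [hw]; exact max_eq_left (by linarith)
        rw [this]; simp
      · exact mul_le_mul_of_nonneg_left h.le (hw0 x)
    have h2 : w' x * ‖y + (x : E)‖ ≤ w' x * ‖y‖ := by
      rcases le_or_gt ‖y‖ ‖y + (x : E)‖ with h | h
      · have : w' x = 0 := by simp only [hw']; exact max_eq_left (by linarith)
        rw [this]; simp
      · exact mul_le_mul_of_nonneg_left h.le (hw'0 x)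
    linarith
  obtain ⟨x₀, hx₀, hlt⟩ := h
  have e4 : w x₀ * ‖y - (x₀ : E)‖ + w' x₀ * ‖y + (x₀ : E)‖ < (w x₀ + w' x₀) * ‖y‖ := by
    have h1 : w x₀ * ‖y - (x₀ : E)‖ < w x₀ * ‖y‖ := by
      apply mul_lt_mul_of_pos_left hlt
      simp only [hw]
      exact lt_max_of_lt_right (by linarith)
    have h2 : w' x₀ * ‖y + (x₀ : E)‖ ≤ w' x₀ * ‖y‖ := by
      rcases le_or_gt ‖y‖ ‖y + (x₀ : E)‖ with h | h
      · have : w' x₀ = 0 := by simp only [hw']; exact max_eq_left (by linarith)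
        rw [this]; simp
      · exact mul_le_mul_of_nonneg_left h.le (hw'0 x₀)
    linarith
  have e5 : ∑ x ∈ T, (w x * ‖y - (x : E)‖ + w' x * ‖y + (x : E)‖) <
      ∑ x ∈ T, (w x + w' x) * ‖y‖ :=
    Finset.sum_lt_sum (fun x _ => e3 x) ⟨x₀, hx₀, e4⟩
  rw [← Finset.sum_mul] at e5
  linarith

theorem kkm_real (G W : Submodule ℝ E) [FiniteDimensional ℝ G] [FiniteDimensional ℝ W]
    (hdim : Module.finrank ℝ G < Module.finrank ℝ W)
    (happ : ∀ y ∈ W, y ≠ 0 → ∃ x ∈ G, ‖y - x‖ < ‖y‖) : False := by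
  classical
  set M := Module.finrank ℝ G with hM
  -- a linear injection of `ℝ^(M+1)` in `W`
  let b := Module.finBasis ℝ W
  let v : Fin (M + 1) → W := fun i => b (Fin.castLE hdim i)
  have hv : LinearIndependent ℝ v :=
    b.linearIndependent.comp _ (Fin.castLE_injective hdim)
  let L : (Fin (M + 1) → ℝ) →ₗ[ℝ] E := W.subtype ∘ₗ Fintype.linearCombination ℝ v
  have hLW : ∀ p, L p ∈ W := fun p => (Fintype.linearCombination ℝ v p).2
  have hLinj : ∀ p, L p = 0 → p = 0 := by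
    intro p hp
    have h1 : Fintype.linearCombination ℝ v p = 0 := Subtype.ext hp
    rw [Fintype.linearCombination_apply] at h1
    funext i
    exact Fintype.linearIndependent_iff.mp hv p h1 i
  have hLc : Continuous L := LinearMap.continuous_of_finiteDimensional L
  let φ : G ≃ₗ[ℝ] (Fin M → ℝ) := (Module.finBasis ℝ G).equivFun
  have hφc : Continuous φ := LinearMap.continuous_of_finiteDimensional φ.toLinearMap
  -- finite subcover
  have hcover : K M ⊆ ⋃ x : G, {p | ‖L p - (x : E)‖ < ‖L p‖} := by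
    intro p hp
    have hp0 : L p ≠ 0 := by
      intro h
      have := hLinj p h
      subst this
      simp [K] at hp
    obtain ⟨x, hx, hlt⟩ := happ (L p) (hLW p) hp0
    exact Set.mem_iUnion.mpr ⟨⟨x, hx⟩, hlt⟩
  obtain ⟨T, hT⟩ := (K_compact M).elim_finite_subcover
    (fun x : G => {p | ‖L p - (x : E)‖ < ‖L p‖})
    (fun x => isOpen_lt (by fun_prop) (by fun_prop)) hcover
  obtain ⟨p, hpK, hp⟩ := borsuk_ulam M (fun p => φ (sel T (L p)))
    (hφc.comp ((sel_continuous T).comp hLc)) (by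
      intro p
      simp only [map_neg, sel_neg])
  have hmem := hT hpK
  rw [Set.mem_iUnion₂] at hmem
  obtain ⟨x, hxT, hx⟩ := hmem
  have h0 : sel T (L p) = 0 := by
    have := φ.injective (a₁ := sel T (L p)) (a₂ := 0) (by rw [map_zero]; exact hp)
    exact this
  exact sel_ne_zero T (L p) ⟨x, hxT, hx⟩ h0

end Pool.Agent.Helper325.KKMFinite
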