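import Mathlib

/-!
Infinite-dimensional part: small opening forces equal density characters.
-/

namespace Pool.Agent.Helper325.OpeningInf

open Cardinal Set

universe u v

variable {𝕜 : Type v} [RCLike 𝕜] {E : Type u} [NormedAddCommGroup E] [NormedSpace 𝕜 E]

/-- `A` is small: it stays uniformly close to the span of at most `κ` vectors of `G`. -/
def Small (κ : Cardinal.{u}) (G : Submodule 𝕜 E) (A : Set E) : Prop :=
  ∃ s : Set E, s ⊆ G ∧ #s ≤ κ ∧ ∀ y ∈ A, ∃ z ∈ Submodule.span 𝕜 s, ‖y - z‖ < 99 / 100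

theorem small_empty {κ : Cardinal.{u}} {G : Submodule 𝕜 E} : Small κ G (∅ : Set E) :=
  ⟨∅, by simp, by simp, by simp⟩

theorem nonempty_of_not_small {κ : Cardinal.{u}} {G : Submodule 𝕜 E} {A : Set E}
    (h : ¬ Small κ G A) : A.Nonempty := by
  rcases A.eq_empty_or_nonempty with rfl | h'
  · exact absurd small_empty h
  · exact h'

theorem pigeon {κ : Cardinal.{u}} (hκ : ℵ₀ ≤ κ) {G : Submodule 𝕜 E} {A : Set E}
    (hA : ¬ Small κ G A) {D : Set E} (hD : #D ≤ κ) (R : E → E → Prop)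
    (hR : ∀ y ∈ A, ∃ d ∈ D, R d y) : ∃ d ∈ D, ¬ Small κ G {y | y ∈ A ∧ R d y} := by
  by_contra hcon
  push Not at hcon
  have hcon' : ∀ d : D, ∃ s : Set E, s ⊆ G ∧ #s ≤ κ ∧
      ∀ y ∈ {y | y ∈ A ∧ R d y}, ∃ z ∈ Submodule.span 𝕜 s, ‖y - z‖ < 99 / 100 :=
    fun d => hcon d d.2
  choose s hs1 hs2 hs3 using hcon'
  apply hA
  refine ⟨⋃ d, s d, ?_, ?_, ?_⟩
  · exact iUnion_subset hs1
  · refine (mk_iUnion_le s).trans ?_
    have h1 : (⨆ i, #(s i)) ≤ κ := ciSup_le' hs2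
    calc #D * ⨆ i, #(s i) ≤ κ * κ := mul_le_mul' hD h1
      _ = κ := mul_eq_self hκ
  · intro y hy
    obtain ⟨d, hd, hRd⟩ := hR y hy
    obtain ⟨z, hz, hyz⟩ := hs3 ⟨d, hd⟩ y ⟨hy, hRd⟩
    exact ⟨z, Submodule.span_mono (subset_iUnion s ⟨d, hd⟩) hz, hyz⟩

theorem sphere_not_small {κ : Cardinal.{u}} {G : Submodule 𝕜 E}
    (hG : ∀ s : Set E, s ⊆ G → #s ≤ κ → ¬ G ≤ (Submodule.span 𝕜 s).topologicalClosure) :
    ¬ Small κ G {y | y ∈ G ∧ ‖y‖ = 1} := by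
  rintro ⟨s, hs, hsκ, h⟩
  have hne := hG s hs hsκ
  have hex : ∃ x : E, x ∈ G ∧ x ∉ (Submodule.span 𝕜 s).topologicalClosure := by
    by_contra hc
    push Not at hc
    exact hne hc
  obtain ⟨x, hxG, hx⟩ := hex
  set F : Submodule 𝕜 G := ((Submodule.span 𝕜 s).topologicalClosure).comap G.subtype with hF
  have hFc : IsClosed (F : Set G) := by
    have : (F : Set G) = (fun x : G => (x : E)) ⁻¹' ((Submodule.span 𝕜 s).topologicalClosure : Set E) := by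
      ext x; simp [hF]
    rw [this]
    exact (Submodule.isClosed_topologicalClosure _).preimage continuous_subtype_val
  obtain ⟨x₀, -, hn, hr⟩ := riesz_lemma_of_lt_one (𝕜 := 𝕜) hFc ⟨⟨x, hxG⟩, by simpa [hF] using hx⟩
    (r := 99 / 100) (by norm_num)
  obtain ⟨z, hz, hxz⟩ := h (x₀ : E) ⟨x₀.2, by simpa using hn⟩
  have hzG : z ∈ G := (Submodule.span_le.mpr hs) hz
  have := hr ⟨z, hzG⟩ (by
    simp only [hF, Submodule.mem_comap, Submodule.subtype_apply]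
    exact (Submodule.le_topologicalClosure _) hz)
  have h2 : ‖x₀ - ⟨z, hzG⟩‖ = ‖(x₀ : E) - z‖ := rfl
  rw [h2] at this
  linarith

/-- The key step: under the approximation hypotheses with constant `14/25` in both directions,
`G₂` is the closed span of at most `κ` vectors, where `κ` bounds the size of a dense subset of
`G₁`. -/
theorem key {κ : Cardinal.{u}} (hκ : ℵ₀ ≤ κ) {G₁ G₂ : Submodule 𝕜 E} {D : Set E}
    (hDG : D ⊆ G₁) (hDκ : #D ≤ κ) (hDd : ∀ x ∈ G₁, ∀ δ : ℝ, 0 < δ → ∃ d ∈ D, ‖x - d‖ ≤ δ)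
    (h12 : ∀ x ∈ G₁, ∀ δ : ℝ, 0 < δ → ∃ y ∈ G₂, ‖x - y‖ ≤ 14 / 25 * ‖x‖ + δ)
    (h21 : ∀ y ∈ G₂, ∀ δ : ℝ, 0 < δ → ∃ x ∈ G₁, ‖y - x‖ ≤ 14 / 25 * ‖y‖ + δ) :
    ∃ s : Set E, s ⊆ G₂ ∧ #s ≤ κ ∧ G₂ ≤ (Submodule.span 𝕜 s).topologicalClosure := by
  by_contra hcon
  push Not at hcon
  have hns := sphere_not_small hcon
  -- approximation of elements of `G₂` by elements of `D`
  have hD2 : ∀ y ∈ G₂, ∃ d ∈ D, ‖y - d‖ ≤ 14 / 25 * ‖y‖ + 1 / 1000 := by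
    intro y hy
    obtain ⟨x, hx, hyx⟩ := h21 y hy (1 / 2000) (by norm_num)
    obtain ⟨d, hd, hxd⟩ := hDd x hx (1 / 2000) (by norm_num)
    refine ⟨d, hd, ?_⟩
    calc ‖y - d‖ = ‖(y - x) + (x - d)‖ := by congr 1; abel
      _ ≤ ‖y - x‖ + ‖x - d‖ := norm_add_le _ _
      _ ≤ 14 / 25 * ‖y‖ + 1 / 1000 := by linarith
  -- the first pigeonhole
  obtain ⟨d₀, hd₀, hY₀⟩ := pigeon hκ hns hDκ (fun d y => ‖y - d‖ ≤ 14 / 25 + 1 / 1000) (by
    rintro y ⟨hy, hy1⟩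
    obtain ⟨d, hd, h⟩ := hD2 y hy
    exact ⟨d, hd, by rw [hy1] at h; linarith⟩)
  set Y₀ : Set E := {y | y ∈ {y | y ∈ G₂ ∧ ‖y‖ = 1} ∧ ‖y - d₀‖ ≤ 14 / 25 + 1 / 1000} with hY₀def
  have hM : ∀ y ∈ Y₀, ∀ y' ∈ Y₀, ‖y - y'‖ ≤ 1122 / 1000 := by
    rintro y ⟨-, hy⟩ y' ⟨-, hy'⟩
    calc ‖y - y'‖ = ‖(y - d₀) - (y' - d₀)‖ := by congr 1; abel
      _ ≤ ‖y - d₀‖ + ‖y' - d₀‖ := norm_sub_le _ _
      _ ≤ 1122 / 1000 := by linarith
  obtain ⟨u₁, hu₁⟩ := nonempty_of_not_small hY₀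
  -- the inductive construction
  have hind : ∀ n : ℕ, ∃ Y : Set E, Y ⊆ Y₀ ∧ ¬ Small κ G₂ Y ∧ ∃ U ∈ G₂, ∃ X ∈ G₁, ∀ y ∈ Y,
      ‖(n : 𝕜) • y - U - X‖ ≤ n * (62932 / 100000 : ℝ) ∧
      ‖y - u₁ - X‖ ≤ n * (62932 / 100000 : ℝ) + 1122 / 1000 := by
    intro n
    induction n with
    | zero =>
      refine ⟨Y₀, subset_rfl, hY₀, 0, G₂.zero_mem, 0, G₁.zero_mem, fun y hy => ?_⟩
      constructor
      · simp
      · simpa using hM y hy u₁ hu₁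
    | succ n ih =>
      obtain ⟨Y, hYY₀, hYns, U, hU, X, hX, h⟩ := ih
      obtain ⟨w, hw⟩ := nonempty_of_not_small hYns
      have hwG : w ∈ G₂ := (hYY₀ hw).1.1
      obtain ⟨d, hd, hd'⟩ := pigeon hκ hYns hDκ (fun d y => ‖y - w - d‖ ≤ 62932 / 100000) (by
        intro y hy
        have hyG : y ∈ G₂ := (hYY₀ hy).1.1
        obtain ⟨d, hd, hyd⟩ := hD2 (y - w) (G₂.sub_mem hyG hwG)
        refine ⟨d, hd, hyd.trans ?_⟩
        have := hM y (hYY₀ hy) w (hYY₀ hw)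
        linarith)
      refine ⟨_, fun y hy => hYY₀ hy.1, hd', U + w, G₂.add_mem hU hwG, X + d,
        G₁.add_mem hX (hDG hd), ?_⟩
      rintro y ⟨hyY, hyd⟩
      have h1 := h y hyY
      have h2 := h w hw
      constructor
      · calc ‖((n + 1 : ℕ) : 𝕜) • y - (U + w) - (X + d)‖
            = ‖((n : 𝕜) • y - U - X) + (y - w - d)‖ := by
              congr 1
              push_cast
              rw [add_smul, one_smul]
              abel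
          _ ≤ ‖(n : 𝕜) • y - U - X‖ + ‖y - w - d‖ := norm_add_le _ _
          _ ≤ ((n + 1 : ℕ) : ℝ) * (62932 / 100000 : ℝ) := by push_cast; linarith [h1.1]
      · calc ‖y - u₁ - (X + d)‖ = ‖(w - u₁ - X) + (y - w - d)‖ := by congr 1; abel
          _ ≤ ‖w - u₁ - X‖ + ‖y - w - d‖ := norm_add_le _ _
          _ ≤ ((n + 1 : ℕ) : ℝ) * (62932 / 100000 : ℝ) + 1122 / 1000 := by
            push_cast; linarith [h2.2]
  obtain ⟨Y, hYY₀, hYns, U, hU, X, hX, h⟩ := hind 1000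
  -- approximants in `G₂` of the elements of `D`
  have hz : ∀ d : D, ∃ z ∈ G₂, ‖(d : E) - z‖ ≤ 14 / 25 * ‖(d : E)‖ + 1 / 1000 :=
    fun d => h12 d (hDG d.2) (1 / 1000) (by norm_num)
  choose z hzG hzd using hz
  set s : Set E := insert U (range z) with hs
  have hsG : s ⊆ G₂ := by
    intro x hx
    rcases hx with rfl | ⟨d, rfl⟩
    · exact hU
    · exact hzG d
  have hsκ : #s ≤ κ := by
    refine (mk_insert_le).trans ?_
    have h1 : #(range z) ≤ κ := mk_range_le.trans hDκ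
    calc #(range z) + 1 ≤ κ + κ := add_le_add h1 (one_le_aleph0.trans hκ)
      _ = κ := add_eq_self hκ
  have hYex : ∃ y ∈ Y, ∀ z ∈ Submodule.span 𝕜 s, 99 / 100 ≤ ‖y - z‖ := by
    by_contra hc
    push Not at hc
    exact hYns ⟨s, hsG, hsκ, hc⟩
  obtain ⟨y, hyY, hy⟩ := hYex
  obtain ⟨h1, h2⟩ := h y hyY
  -- the average
  set w : E := ((1000 : 𝕜)⁻¹) • X with hw
  have hwG : w ∈ G₁ := G₁.smul_mem _ hX
  have hn1000 : ‖((1000 : 𝕜)⁻¹)‖ = (1000 : ℝ)⁻¹ := by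
    rw [norm_inv]
    congr 1
    have : (1000 : 𝕜) = ((1000 : ℝ) : 𝕜) := by norm_cast
    rw [this, RCLike.norm_ofReal]
    norm_num
  have hXn : ‖X‖ ≤ 1000 * (62932 / 100000 : ℝ) + 2 * (1122 / 1000) := by
    have h3 := hM y (hYY₀ hyY) u₁ hu₁
    calc ‖X‖ = ‖(y - u₁) - (y - u₁ - X)‖ := by congr 1; abel
      _ ≤ ‖y - u₁‖ + ‖y - u₁ - X‖ := norm_sub_le _ _
      _ ≤ 1000 * (62932 / 100000 : ℝ) + 2 * (1122 / 1000) := by
        push_cast at h2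
        linarith
  have hwn : ‖w‖ ≤ 631564 / 1000000 := by
    rw [hw, norm_smul, hn1000]
    linarith
  obtain ⟨d, hd, hwd⟩ := hDd w hwG (1 / 1000) (by norm_num)
  have hdn : ‖d‖ ≤ 632564 / 1000000 := by
    calc ‖d‖ = ‖w - (w - d)‖ := by congr 1; abel
      _ ≤ ‖w‖ + ‖w - d‖ := norm_sub_le _ _
      _ ≤ _ := by linarith
  have hzd' := hzd ⟨d, hd⟩
  have hmem : ((1000 : 𝕜)⁻¹) • U + z ⟨d, hd⟩ ∈ Submodule.span 𝕜 s := by
    refine Submodule.add_mem _ (Submodule.smul_mem _ _ (Submodule.subset_span ?_))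
      (Submodule.subset_span ?_)
    · exact mem_insert _ _
    · exact mem_insert_of_mem _ ⟨_, rfl⟩
  have hfin := hy _ hmem
  have h4 : ‖y - ((1000 : 𝕜)⁻¹) • U - w‖ ≤ 62932 / 100000 := by
    have h5 : y - ((1000 : 𝕜)⁻¹) • U - w = ((1000 : 𝕜)⁻¹) • (((1000 : ℕ) : 𝕜) • y - U - X) := by
      rw [hw, smul_sub, smul_sub, smul_smul]
      have : ((1000 : 𝕜)⁻¹) * ((1000 : ℕ) : 𝕜) = 1 := by
        have h0 : (1000 : 𝕜) ≠ 0 := by norm_num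
        push_cast
        exact inv_mul_cancel₀ h0
      rw [this, one_smul]
    rw [h5, norm_smul, hn1000]
    push_cast at h1 ⊢
    linarith
  have h6 : ‖y - (((1000 : 𝕜)⁻¹) • U + z ⟨d, hd⟩)‖ ≤
      ‖y - ((1000 : 𝕜)⁻¹) • U - w‖ + ‖w - d‖ + ‖d - z ⟨d, hd⟩‖ := by
    calc ‖y - (((1000 : 𝕜)⁻¹) • U + z ⟨d, hd⟩)‖
        = ‖(y - ((1000 : 𝕜)⁻¹) • U - w) + (w - d) + (d - z ⟨d, hd⟩)‖ := by congr 1; abel
      _ ≤ _ := norm_add₃_le
  simp only at hzd'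
  linarith

end Pool.Agent.Helper325.OpeningInf
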